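import Mathlib
import Pool.Agent.Y22.LM2
import Pool.Agent.Y22.RX2

set_option autoImplicit false

/-! Growth of the modulus on horizontal lines of functions symmetric about the imaginary axis
(no reality, no condition at real zeros or at the central point). -/

namespace Pool.Agent.X284.HG

open Polynomial Complex Filter Topology MeasureTheory
open scoped ComplexConjugate
open Pool.Agent.Y22.LM

noncomputable section

/-- `f (-conj z) = conj (f z)`, zeros in the strip `|Re z| ≤ 1/2`, `f ^ 2` a limit of symmetric polynomials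
with zeros at zeros of `f` or on the axis, modulus not constant on any horizontal line -/
structure Ap (f : ℂ → ℂ) : Prop where
  diff : Differentiable ℂ f
  symm : ∀ z : ℂ, f (-(conj z)) = conj (f z)
  strip : ∀ b : ℂ, f b = 0 → |b.re| ≤ 1 / 2
  big : ∀ t : ℝ, ∃ x x' : ℝ, ‖f (x + t * I : ℂ)‖ ≠ ‖f (x' + t * I : ℂ)‖
  app : ∃ p : ℕ → ℂ[X], (∀ (N : ℕ) (z : ℂ), (p N).eval z = 0 → f z = 0 ∨ z.re = 0) ∧
    (∀ z : ℂ, Tendsto (fun N => (p N).eval z) atTop (𝓝 (f z ^ 2))) ∧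
    ∀ (N : ℕ) (h t : ℝ), ‖(p N).eval (-h + t * I : ℂ)‖ = ‖(p N).eval (h + t * I : ℂ)‖

variable {f : ℂ → ℂ}

/-- the modulus does not decrease -/
theorem Ap.mono (h : Ap f) {t h0 : ℝ} (h0n : 0 ≤ h0)
    (hZ : ∀ b : ℂ, f b = 0 → h0 < |b.re| → |b.re| ≤ |t - b.im|) {h1 h2 : ℝ} (h01 : h0 ≤ h1) (h12 : h1 ≤ h2) :
    ‖f (h1 + t * I : ℂ)‖ ≤ ‖f (h2 + t * I : ℂ)‖ := by
  obtain ⟨p, hp1, hp2, hp3⟩ := h.app
  have h3 : ∀ N, ‖(p N).eval (h1 + t * I : ℂ)‖ ≤ ‖(p N).eval (h2 + t * I : ℂ)‖ := by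
    intro N
    have h4 := poly_ineq (p := p N) (t := t) (h0 := h0) (h1 := h1) (h2 := h2) (fun x => hp3 N x t) h0n h01 h12
      ∅ (fun _ => 0) (fun b hb hb1 hb2 => by
        exfalso
        have hb0 : (p N).eval b = 0 := Polynomial.isRoot_of_mem_roots hb
        rcases hp1 N b hb0 with h5 | h5
        · have := hZ b h5 hb2
          linarith
        · rw [h5, abs_zero] at hb1
          exact absurd hb1 (not_lt.mpr (abs_nonneg _))) (fun b hb => by simp at hb) (fun b hb => by simp at hb)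
    simpa using h4
  have h5 := le_of_tendsto_of_tendsto' ((hp2 (h1 + t * I : ℂ)).norm) ((hp2 (h2 + t * I : ℂ)).norm) h3
  rw [norm_pow, norm_pow] at h5
  exact le_of_pow_le_pow_left₀ (by norm_num) (norm_nonneg _) h5

/-- strict growth on a ray -/
theorem Ap.strict (h : Ap f) {t h0 : ℝ} (h0n : 0 ≤ h0)
    (hZ : ∀ b : ℂ, f b = 0 → h0 < |b.re| → |b.re| ≤ |t - b.im|) :
    StrictMonoOn (fun x : ℝ => ‖f (x + t * I : ℂ)‖) (Set.Ici h0) := by
  intro h1 hh1 h2 hh2 h12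
  rw [Set.mem_Ici] at hh1 hh2
  show ‖f (h1 + t * I : ℂ)‖ < ‖f (h2 + t * I : ℂ)‖
  by_contra hcon
  push Not at hcon
  have hconst : ∀ x ∈ Set.Ioo h1 h2, ‖f (x + t * I : ℂ)‖ = ‖f (h1 + t * I : ℂ)‖ := by
    intro x hh
    have a1 := h.mono h0n hZ hh1 hh.1.le
    have a2 := h.mono h0n hZ (hh1.trans hh.1.le) hh.2.le
    linarith
  obtain ⟨G, hG⟩ : ∃ G : ℂ → ℂ, G = fun z => f (z + t * I) * f (-z + t * I) - ((‖f (h1 + t * I : ℂ)‖ : ℂ)) ^ 2 := ⟨_, rfl⟩
  have hGd : Differentiable ℂ G := by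
    rw [hG]
    have e1 : Differentiable ℂ (fun z : ℂ => f (z + t * I)) := h.diff.comp (by fun_prop)
    have e2 : Differentiable ℂ (fun z : ℂ => f (-z + t * I)) := h.diff.comp (by fun_prop)
    exact (e1.mul e2).sub_const _
  have hsy : ∀ x : ℝ, f (-x + t * I : ℂ) = conj (f (x + t * I : ℂ)) := by
    intro x
    have e1 : (-x + t * I : ℂ) = -(conj (x + t * I : ℂ)) := by
      rw [map_add, map_mul, Complex.conj_ofReal, Complex.conj_ofReal, Complex.conj_I]; ring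
    rw [e1, h.symm]
  have hG0 : ∀ x ∈ Set.Ioo h1 h2, G x = 0 := by
    intro x hh
    rw [hG]
    simp only
    rw [hsy, Complex.mul_conj, Complex.normSq_eq_norm_sq, hconst x hh]
    push_cast
    ring
  have hGz : G = 0 := by
    have hm : (((h1 + h2) / 2 : ℝ) : ℂ) ∈ (Set.univ : Set ℂ) := Set.mem_univ _
    have hfreq : ∃ᶠ z in 𝓝[≠] (((h1 + h2) / 2 : ℝ) : ℂ), G z = 0 := by
      have hmap : Tendsto (fun x : ℝ => (x : ℂ)) (𝓝[≠] ((h1 + h2) / 2)) (𝓝[≠] (((h1 + h2) / 2 : ℝ) : ℂ)) := by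
        refine tendsto_nhdsWithin_iff.mpr ⟨(Complex.continuous_ofReal.tendsto _).mono_left nhdsWithin_le_nhds, ?_⟩
        filter_upwards [self_mem_nhdsWithin] with x hx
        rw [Set.mem_compl_singleton_iff] at hx ⊢
        exact fun h0 => hx (by exact_mod_cast h0)
      refine hmap.frequently (Eventually.frequently ?_)
      have : ∀ᶠ x : ℝ in 𝓝 ((h1 + h2) / 2), x ∈ Set.Ioo h1 h2 := isOpen_Ioo.mem_nhds ⟨by linarith, by linarith⟩
      filter_upwards [this.filter_mono nhdsWithin_le_nhds] with x hx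
      exact hG0 x hx
    have h3 := AnalyticOnNhd.eqOn_zero_of_preconnected_of_frequently_eq_zero (f := G) (U := Set.univ)
      (fun z _ => hGd.analyticAt z) isPreconnected_univ hm hfreq
    funext z
    exact h3 (Set.mem_univ z)
  have hall : ∀ x : ℝ, ‖f (x + t * I : ℂ)‖ = ‖f (h1 + t * I : ℂ)‖ := by
    intro x
    have h4 := congrFun hGz (x : ℂ)
    rw [hG] at h4
    simp only [Pi.zero_apply] at h4
    rw [hsy, Complex.mul_conj, Complex.normSq_eq_norm_sq, sub_eq_zero] at h4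
    have h5 : ‖f (x + t * I : ℂ)‖ ^ 2 = ‖f (h1 + t * I : ℂ)‖ ^ 2 := by exact_mod_cast h4
    exact (pow_left_inj₀ (norm_nonneg _) (norm_nonneg _) (by norm_num)).1 h5
  obtain ⟨x, x', hx⟩ := h.big t
  exact hx ((hall x).trans (hall x').symm)

/-- the zeros above the real line at distance at least `δ` from the imaginary axis -/
def S (f : ℂ → ℂ) (δ T : ℝ) : Set ℂ := {b | f b = 0 ∧ δ ≤ |b.re| ∧ 0 < b.im ∧ b.im ≤ T}

/-- the heights at which the growth fails -/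
def Bad (f : ℂ → ℂ) (h0 T : ℝ) : Set ℝ :=
  {t : ℝ | 0 ≤ t ∧ t ≤ T ∧ ¬ StrictMonoOn (fun x : ℝ => ‖f (x + t * I : ℂ)‖) (Set.Ici h0)}

theorem Ap.bad_cover (h : Ap f) {h0 T : ℝ} (h0n : 0 ≤ h0) {t : ℝ} (ht : t ∈ Bad f h0 T) :
    (∃ b ∈ S f h0 (T + 1 / 2), t ∈ Set.Icc (b.im - |b.re|) (b.im + |b.re|)) ∨
      (h0 < 1 / 2 ∧ t ∈ Set.Icc (0 : ℝ) (1 / 2)) := by
  obtain ⟨ht0, htT, hbad⟩ := ht
  by_contra hcon
  push Not at hcon
  obtain ⟨hc1, hc2⟩ := hcon
  apply hbad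
  refine h.strict h0n fun b hb hb0 => ?_
  by_contra hlt
  push Not at hlt
  have hs := h.strip b hb
  have ht2 : 1 / 2 < t := by
    by_contra hle
    push Not at hle
    exact hc2 (lt_of_lt_of_le hb0 hs) ⟨ht0, hle⟩
  have h4 := abs_lt.1 hlt
  rcases le_or_gt b.im 0 with him | him
  · have h5 : t - b.im ≤ |t - b.im| := le_abs_self _
    linarith
  · refine hc1 b ⟨hb, hb0.le, him, ?_⟩ ⟨by linarith, by linarith⟩
    linarith

theorem Ap.bad_meas (h : Ap f) {c C : ℝ} (hc : 0 < c) (hc1 : c ≤ 1) (hC : 0 < C)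
    (hcount : ∀ δ T : ℝ, 0 ≤ δ → 2 ≤ T → (S f δ T).Finite ∧
      ((S f δ T).ncard : ℝ) ≤ C * T ^ (1 - c * δ) * Real.log T) :
    ∃ C' : ℝ, 0 < C' ∧ ∀ r T : ℝ, 0 ≤ r → 2 ≤ T →
      volume (Bad f (r / Real.log T) T) ≤ ENNReal.ofReal (C' * (1 + r) * Real.exp (-(c * r)) * T) := by
  classical
  have hl2 : 0 < Real.log 2 := Real.log_pos (by norm_num)
  have hlD : 0 ≤ Real.log (2 : ℝ) := Real.log_nonneg (by norm_num)
  refine ⟨2 * C * 2 * 2 * (1 + 1 / c) + 1, by positivity, fun r T hr hT => ?_⟩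
  have hT0 : 0 < T := by linarith
  obtain ⟨L, hL⟩ : ∃ L : ℝ, L = Real.log T := ⟨_, rfl⟩
  rw [← hL]
  have hL2 : Real.log 2 ≤ L := by rw [hL]; exact Real.log_le_log (by norm_num) hT
  have hL0 : 0 < L := lt_of_lt_of_le hl2 hL2
  obtain ⟨h0, hh0⟩ : ∃ h0 : ℝ, h0 = r / L := ⟨_, rfl⟩
  rw [← hh0]
  have h0n : 0 ≤ h0 := by rw [hh0]; positivity
  obtain ⟨T', hT'⟩ : ∃ T' : ℝ, T' = 2 * T := ⟨_, rfl⟩
  have hT'2 : 2 ≤ T' := by rw [hT']; linarith
  have hT'0 : 0 < T' := by linarith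
  have hTD : T + 1 / 2 ≤ T' := by rw [hT']; linarith
  have hTT' : T ≤ T' := by linarith
  have hlogT' : Real.log T' = Real.log 2 + L := by
    rw [hT', Real.log_mul (by norm_num) hT0.ne', hL]
  have hlogT'1 : Real.log T' ≤ 2 * L := by
    rw [hlogT']; linarith
  have hlogT'2 : L ≤ Real.log T' := by rw [hlogT']; linarith
  have hfin := (hcount h0 T' h0n hT'2).1
  obtain ⟨Z, hZ⟩ : ∃ Z : Finset ℂ, Z = hfin.toFinset := ⟨_, rfl⟩
  have hmem : ∀ b, b ∈ Z ↔ b ∈ S f h0 T' := fun b => by rw [hZ, Set.Finite.mem_toFinset]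
  -- counting
  have hcnt : ∀ u : ℝ, h0 ≤ u → ((Z.filter (fun b => u ≤ |b.re|)).card : ℝ) ≤
      (C * 2 * 2 * T * L) * Real.exp (-((c * L) * u)) := by
    intro u hu
    have hu0 : 0 ≤ u := h0n.trans hu
    obtain ⟨hf1, hf2⟩ := hcount u T' hu0 hT'2
    have h1 : (Z.filter (fun b => u ≤ |b.re|)).card ≤ (S f u T').ncard := by
      rw [← Set.ncard_coe_finset]
      refine Set.ncard_le_ncard ?_ hf1
      intro b hb
      rw [Finset.mem_coe, Finset.mem_filter, hmem] at hb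
      exact ⟨hb.1.1, hb.2, hb.1.2.2.1, hb.1.2.2.2⟩
    have h2 : (((Z.filter (fun b => u ≤ |b.re|)).card : ℕ) : ℝ) ≤ ((S f u T').ncard : ℝ) := by exact_mod_cast h1
    refine h2.trans (hf2.trans ?_)
    have h3 : T' ^ (1 - c * u) = T' * Real.exp (-(c * u * Real.log T')) := by
      rw [Real.rpow_def_of_pos hT'0]
      have : Real.log T' * (1 - c * u) = Real.log T' + -(c * u * Real.log T') := by ring
      rw [this, Real.exp_add, Real.exp_log hT'0]
    have h4 : Real.exp (-(c * u * Real.log T')) ≤ Real.exp (-((c * L) * u)) := by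
      apply Real.exp_le_exp.mpr
      have := mul_le_mul_of_nonneg_left hlogT'2 (mul_nonneg hc.le hu0)
      linarith
    have hlogn : 0 ≤ Real.log T' := hL0.le.trans hlogT'2
    calc C * T' ^ (1 - c * u) * Real.log T'
        = C * (T' * Real.exp (-(c * u * Real.log T'))) * Real.log T' := by rw [h3]
      _ ≤ C * (T' * Real.exp (-((c * L) * u))) * (2 * L) := by
          gcongr
      _ = (C * 2 * 2 * T * L) * Real.exp (-((c * L) * u)) := by rw [hT']; ring
  have hsum := Pool.Agent.Y22.RX.sum_le Z (fun b => |b.re|) (h0 := h0) (A := C * 2 * 2 * T * L) (a := c * L)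
    (by positivity) h0n (by positivity) (fun b hb => ((hmem b).mp hb).2.1) hcnt
  -- cover
  have hsub : Bad f h0 T ⊆ (⋃ b ∈ Z, Set.Icc (b.im - |b.re|) (b.im + |b.re|)) ∪
      (if h0 < 1 / 2 then Set.Icc (0 : ℝ) (1 / 2) else ∅) := by
    intro t ht
    rcases h.bad_cover h0n ht with ⟨b, hb, htb⟩ | ⟨hh, htt⟩
    · left
      refine Set.mem_biUnion (x := b) ?_ htb
      rw [Finset.mem_coe, hmem]
      exact ⟨hb.1, hb.2.1, hb.2.2.1, hb.2.2.2.trans hTD⟩
    · right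
      rw [if_pos hh]
      exact htt
  have hsmall : volume (if h0 < 1 / 2 then Set.Icc (0 : ℝ) (1 / 2) else (∅ : Set ℝ)) ≤
      ENNReal.ofReal (Real.exp (-(c * r)) * T) := by
    split_ifs with hh
    · rw [Real.volume_Icc]
      apply ENNReal.ofReal_le_ofReal
      have h1 : r < L / 2 := by
        rw [hh0, div_lt_iff₀ hL0] at hh
        linarith
      have h2 : c * r ≤ L := by
        have : c * r ≤ 1 * r := mul_le_mul_of_nonneg_right hc1 hr
        linarith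
      have h3 : 1 ≤ Real.exp (-(c * r)) * T := by
        have h4 : T = Real.exp L := by rw [hL, Real.exp_log hT0]
        rw [h4, ← Real.exp_add]
        exact Real.one_le_exp (by linarith)
      linarith
    · simp
  refine (measure_mono hsub).trans ((measure_union_le _ _).trans ?_)
  have h5 : ∑ b ∈ Z, volume (Set.Icc (b.im - |b.re|) (b.im + |b.re|)) = ENNReal.ofReal (2 * ∑ b ∈ Z, |b.re|) := by
    rw [Finset.mul_sum, ENNReal.ofReal_sum_of_nonneg (fun b _ => by positivity)]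
    refine Finset.sum_congr rfl fun b _ => ?_
    rw [Real.volume_Icc]
    congr 1
    ring
  have h6 : (c * L) * h0 = c * r := by
    rw [hh0]; field_simp
  rw [h6] at hsum
  have h7 : (C * 2 * 2 * T * L) * Real.exp (-(c * r)) * (h0 + 1 / (c * L)) =
      C * 2 * 2 * T * Real.exp (-(c * r)) * (r + 1 / c) := by
    rw [hh0]; field_simp
  rw [h7] at hsum
  have h8 : r + 1 / c ≤ (1 + 1 / c) * (1 + r) := by
    have : 0 ≤ 1 / c := by positivity
    nlinarith
  have h9 : C * 2 * 2 * T * Real.exp (-(c * r)) * (r + 1 / c) ≤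
      C * 2 * 2 * T * Real.exp (-(c * r)) * ((1 + 1 / c) * (1 + r)) :=
    mul_le_mul_of_nonneg_left h8 (by positivity)
  have hm1 : volume (⋃ b ∈ Z, Set.Icc (b.im - |b.re|) (b.im + |b.re|)) ≤ ENNReal.ofReal (2 * ∑ b ∈ Z, |b.re|) := by
    rw [← h5]
    exact measure_biUnion_finset_le Z _
  have hsn : 0 ≤ 2 * ∑ b ∈ Z, |b.re| := mul_nonneg (by norm_num) (Finset.sum_nonneg fun b _ => abs_nonneg _)
  have hen : 0 ≤ Real.exp (-(c * r)) * T := mul_nonneg (Real.exp_pos _).le hT0.le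
  refine (add_le_add hm1 hsmall).trans ?_
  rw [← ENNReal.ofReal_add hsn hen]
  refine ENNReal.ofReal_le_ofReal ?_
  have h10 : Real.exp (-(c * r)) * T ≤ (1 + r) * (Real.exp (-(c * r)) * T) := by
    have := mul_nonneg hr hen
    linarith
  calc 2 * ∑ b ∈ Z, |b.re| + Real.exp (-(c * r)) * T
      ≤ 2 * (C * 2 * 2 * T * Real.exp (-(c * r)) * ((1 + 1 / c) * (1 + r))) + (1 + r) * (Real.exp (-(c * r)) * T) := by
        linarith
    _ = (2 * C * 2 * 2 * (1 + 1 / c) + 1) * (1 + r) * Real.exp (-(c * r)) * T := by ring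

/-- the final form -/
theorem Ap.bad_all (h : Ap f)
    (hcount : ∀ c : ℝ, c < 1 → ∃ C : ℝ, 0 < C ∧ ∀ δ T : ℝ, 0 ≤ δ → 2 ≤ T → (S f δ T).Finite ∧
      ((S f δ T).ncard : ℝ) ≤ C * T ^ (1 - c * δ) * Real.log T) {c : ℝ} (hc : c < 1) :
    ∃ C' : ℝ, 0 < C' ∧ ∀ r T : ℝ, 0 ≤ r → 2 ≤ T →
      volume (Bad f (r / Real.log T) T) ≤ ENNReal.ofReal (C' * Real.exp (-(c * r)) * T) := by
  obtain ⟨c1, hc1, hcc1, hc11⟩ : ∃ c1 : ℝ, 0 < c1 ∧ c < c1 ∧ c1 < 1 := by
    refine ⟨max ((c + 1) / 2) (1 / 2), ?_, ?_, ?_⟩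
    · exact lt_of_lt_of_le (by norm_num) (le_max_right _ _)
    · exact lt_of_lt_of_le (by linarith) (le_max_left _ _)
    · exact max_lt (by linarith) (by norm_num)
  obtain ⟨C, hC, h1⟩ := hcount c1 hc11
  obtain ⟨C1, hC1, h2⟩ := h.bad_meas hc1 hc11.le hC h1
  have hd : 0 < c1 - c := by linarith
  refine ⟨C1 * max 1 (1 / (c1 - c)), by positivity, fun r T hr hT => (h2 r T hr hT).trans ?_⟩
  refine ENNReal.ofReal_le_ofReal ?_
  have h3 : 1 + r ≤ max 1 (1 / (c1 - c)) * Real.exp ((c1 - c) * r) := by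
    have h4 : 1 + (c1 - c) * r ≤ Real.exp ((c1 - c) * r) := by
      have := Real.add_one_le_exp ((c1 - c) * r)
      linarith
    have h5 : 1 + r ≤ max 1 (1 / (c1 - c)) * (1 + (c1 - c) * r) := by
      have h6 : 1 ≤ max 1 (1 / (c1 - c)) := le_max_left _ _
      have h7 : 1 ≤ max 1 (1 / (c1 - c)) * (c1 - c) := by
        have := mul_le_mul_of_nonneg_right (le_max_right 1 (1 / (c1 - c))) hd.le
        rwa [one_div_mul_cancel hd.ne'] at this
      nlinarith [mul_le_mul_of_nonneg_right h7 hr]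
    exact h5.trans (mul_le_mul_of_nonneg_left h4 (by positivity))
  have h8 : Real.exp ((c1 - c) * r) * Real.exp (-(c1 * r)) = Real.exp (-(c * r)) := by
    rw [← Real.exp_add]
    congr 1
    ring
  have hT0 : 0 < T := by linarith
  calc C1 * (1 + r) * Real.exp (-(c1 * r)) * T
      ≤ C1 * (max 1 (1 / (c1 - c)) * Real.exp ((c1 - c) * r)) * Real.exp (-(c1 * r)) * T := by gcongr
    _ = C1 * max 1 (1 / (c1 - c)) * (Real.exp ((c1 - c) * r) * Real.exp (-(c1 * r))) * T := by ring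
    _ = C1 * max 1 (1 / (c1 - c)) * Real.exp (-(c * r)) * T := by rw [h8]

end

end Pool.Agent.X284.HG
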