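import Pool.Agent.Y275.GL.Had1
import Pool.Agent.X284.HG.Me

set_option autoImplicit false

/-! The approximation in `Ap` from Hadamard's factorisation of genus one. -/

namespace Pool.Agent.X284.HG

open Polynomial Complex Filter Topology MeasureTheory
open scoped ComplexConjugate

noncomputable section

theorem eval_conj (P : ℂ[X]) (w : ℂ) : (P.map (starRingEnd ℂ)).eval w = conj (P.eval (conj w)) := by
  rw [Polynomial.eval_map, ← Polynomial.eval₂_at_apply]
  simp

theorem ap_of {Φ : ℂ → ℂ} (hΦ : Differentiable ℂ Φ) (hsym : ∀ z : ℂ, Φ (-(conj z)) = conj (Φ z))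
    (hgr : ∃ K : ℝ, 0 < K ∧ ∀ z : ℂ, ‖Φ z‖ ≤ Real.exp (K * (1 + ‖z‖) ^ (3 / 2 : ℝ)))
    (hz : ∀ b : ℂ, Φ b = 0 → |b.re| ≤ 1 / 2)
    (hbig : ∀ t : ℝ, ∃ x x' : ℝ, ‖Φ (x + t * I : ℂ)‖ ≠ ‖Φ (x' + t * I : ℂ)‖) : Ap Φ := by
  refine ⟨hΦ, hsym, hz, hbig, ?_⟩
  obtain ⟨K, hK, hb⟩ := hgr
  obtain ⟨t0, ht0⟩ : ∃ t0 : ℝ, Φ (I * t0) ≠ 0 := by
    have han : AnalyticOnNhd ℂ Φ Set.univ := fun z _ => hΦ.analyticAt z
    rcases (han 0 (Set.mem_univ _)).eventually_eq_zero_or_eventually_ne_zero with h | h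
    · exfalso
      obtain ⟨x, x', hx⟩ := hbig 0
      have h0 : ∀ z, Φ z = 0 := fun z => han.eqOn_zero_of_preconnected_of_eventuallyEq_zero isPreconnected_univ
        (Set.mem_univ 0) h (Set.mem_univ z)
      exact hx (by rw [h0, h0])
    · have h1 : Tendsto (fun t : ℝ => I * (t : ℂ)) (𝓝[≠] 0) (𝓝[≠] 0) := by
        rw [tendsto_nhdsWithin_iff]
        constructor
        · have h2 : Tendsto (fun t : ℝ => I * (t : ℂ)) (𝓝 0) (𝓝 (I * ((0 : ℝ) : ℂ))) :=
            (Continuous.tendsto (by fun_prop) 0)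
          rw [Complex.ofReal_zero, mul_zero] at h2
          exact h2.mono_left nhdsWithin_le_nhds
        · filter_upwards [self_mem_nhdsWithin] with t ht h3
          rcases mul_eq_zero.1 h3 with h4 | h4
          · exact Complex.I_ne_zero h4
          · exact ht (by exact_mod_cast h4)
      exact (h1.eventually h).exists
  obtain ⟨f, hf⟩ : ∃ f : ℂ → ℂ, f = fun x => Φ (I * x + I * t0) := ⟨_, rfl⟩
  have hfd : Differentiable ℂ f := by
    rw [hf]
    exact hΦ.comp (by fun_prop)
  have hf0 : f 0 ≠ 0 := by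
    rw [hf]
    simpa using ht0
  have hfs : ∀ x, f ((starRingEnd ℂ) x) = (starRingEnd ℂ) (f x) := by
    intro x
    rw [hf]
    simp only
    rw [← hsym]
    congr 1
    simp only [map_add, map_mul, Complex.conj_I, Complex.conj_ofReal]
    ring
  have hK' : 0 ≤ K * (1 + |t0|) ^ (3 / 2 : ℝ) := by positivity
  have hfb : ∀ w, ‖f w‖ ≤ Real.exp (K * (1 + |t0|) ^ (3 / 2 : ℝ) * (1 + ‖w‖) ^ (3 / 2 : ℝ)) := by
    intro w
    rw [hf]
    refine (hb _).trans (Real.exp_le_exp.2 ?_)
    rw [mul_assoc, ← Real.mul_rpow (by positivity) (by positivity)]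
    refine mul_le_mul_of_nonneg_left (Real.rpow_le_rpow (by positivity) ?_ (by norm_num)) hK.le
    have h1 : ‖I * w + I * (t0 : ℂ)‖ ≤ ‖w‖ + |t0| := by
      refine (norm_add_le _ _).trans (le_of_eq ?_)
      rw [norm_mul, norm_mul, Complex.norm_I, Complex.norm_real, Real.norm_eq_abs, one_mul, one_mul]
    have h2 : 0 ≤ |t0| * ‖w‖ := by positivity
    nlinarith
  obtain ⟨Q, hQ, hlim⟩ := Pool.Agent.Y275.GL.had_real hfd hf0 hfs hK' hfb
  have hpt : ∀ w : ℂ, Tendsto (fun N => (Q N).eval w) atTop (𝓝 (f w)) := fun w =>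
    (tendstoLocallyUniformlyOn_univ.mpr hlim).tendsto_at (Set.mem_univ w)
  have hfΦ : ∀ z : ℂ, f (-I * z - t0) = Φ z := by
    intro z
    have h1 : I * (-I * z - (t0 : ℂ)) + I * (t0 : ℂ) = z := by
      have := Complex.I_mul_I
      linear_combination (-z) * this
    rw [hf]
    simp only [h1]
  obtain ⟨P, hP⟩ : ∃ P : ℕ → ℂ[X], P = fun N => Q N * (Q N).map (starRingEnd ℂ) := ⟨_, rfl⟩
  have hPe : ∀ (N : ℕ) (w : ℂ), (P N).eval w = (Q N).eval w * conj ((Q N).eval (conj w)) := by
    intro N w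
    rw [hP]
    simp only [eval_mul, eval_conj]
  have hPc : ∀ (N : ℕ) (w : ℂ), (P N).eval (conj w) = conj ((P N).eval w) := by
    intro N w
    rw [hPe, hPe, map_mul, Complex.conj_conj, Complex.conj_conj]
    ring
  have hev : ∀ (N : ℕ) (z : ℂ), ((P N).comp (Polynomial.C (-I) * Polynomial.X -
      Polynomial.C (t0 : ℂ))).eval z = (P N).eval (-I * z - t0) := by
    intro N z
    rw [eval_comp, eval_sub, eval_mul, eval_C, eval_X, eval_C]
  refine ⟨fun N => (P N).comp (Polynomial.C (-I) * Polynomial.X - Polynomial.C (t0 : ℂ)), ?_, ?_, ?_⟩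
  · intro N z hr
    rw [hev, hPe] at hr
    have h1 : (-I * z - (t0 : ℂ)).im = -z.re := by simp
    rcases mul_eq_zero.1 hr with h | h
    · rcases hQ N _ h with h2 | h2
      · left
        rwa [hfΦ] at h2
      · right
        rw [h1] at h2
        linarith
    · have h3 : (Q N).eval (conj (-I * z - (t0 : ℂ))) = 0 := by
        have := congrArg conj h
        simpa using this
      rcases hQ N _ h3 with h2 | h2
      · left
        rw [hfs, hfΦ] at h2
        have := congrArg conj h2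
        simpa using this
      · right
        rw [Complex.conj_im, h1] at h2
        linarith
  · intro z
    simp only [hev, hPe]
    have h1 := hpt (-I * z - t0)
    have h2 := hpt (conj (-I * z - t0))
    rw [hfs] at h2
    have h3 := (Complex.continuous_conj.tendsto _).comp h2
    rw [Complex.conj_conj] at h3
    have h4 := h1.mul h3
    rw [hfΦ] at h4
    rw [sq]
    exact h4
  · intro N h t
    simp only [hev]
    have h1 : (-I * (-(h : ℂ) + t * I) - (t0 : ℂ)) = conj (-I * ((h : ℂ) + t * I) - (t0 : ℂ)) := by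
      simp only [map_sub, map_mul, map_add, map_neg, Complex.conj_I, Complex.conj_ofReal]
      ring
    rw [h1, hPc, Complex.norm_conj]

end

end Pool.Agent.X284.HG
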