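import Pool.Agent.Y24.GL.H5
import Pool.Agent.Y24.GL.H6
import Pool.Agent.Y24.GL.H7
import Pool.Agent.Y671.GL.Fin
import Pool.Agent.X284.HG.Apx

set_option autoImplicit false

/-! Zeros off the line and growth on horizontal lines for the completed L-function of a form with
arbitrary (complex) coefficients. -/

namespace Pool.Agent.X284.HG

open Complex Filter Topology MeasureTheory
open Pool.Agent.Y671.GL
open scoped ComplexConjugate

noncomputable section

/-- conjugate coefficients: conjugate L-function -/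
theorem L_conj {lam : ℕ → ℂ} {Z Z' : ℂ → ℂ} (hL : IsL lam Z) (hL' : IsL (fun n => conj (lam n)) Z')
    (s : ℂ) : Z' s = conj (Z (conj s)) := by
  have hd1 : Differentiable ℂ (conj ∘ Z ∘ conj) := by
    intro z
    have := (hL.diff (conj z)).conj_conj
    rwa [Complex.conj_conj] at this
  have hev : (conj ∘ Z ∘ conj) =ᶠ[𝓝 (2 : ℂ)] Z' := by
    have hopen : IsOpen {s : ℂ | 1 < s.re} := isOpen_lt continuous_const Complex.continuous_re
    filter_upwards [hopen.mem_nhds (show (2 : ℂ) ∈ {s : ℂ | 1 < s.re} by simp)] with s hs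
    simp only [Function.comp_apply]
    rw [hL'.ser s hs, hL.ser (conj s) (by simpa using hs), Complex.conj_tsum]
    refine tsum_congr fun n => ?_
    rw [map_mul]
    congr 1
    rcases Nat.eq_zero_or_pos n with rfl | hn
    · rcases eq_or_ne s 0 with rfl | hs0
      · simp
      · have h1 : (-s) ≠ 0 := neg_ne_zero.2 hs0
        have h2 : (-(conj s)) ≠ 0 := by
          rw [Ne, neg_eq_zero, map_eq_zero]
          exact hs0
        rw [Nat.cast_zero, Complex.zero_cpow h2, Complex.zero_cpow h1, map_zero]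
    · have h1 : (n : ℂ).arg ≠ Real.pi := by
        rw [Complex.natCast_arg]
        exact Real.pi_ne_zero.symm
      have h2 := Complex.cpow_conj (n : ℂ) (-s) h1
      rw [map_neg, Complex.conj_natCast] at h2
      rw [h2, Complex.conj_conj]
  have h3 := AnalyticOnNhd.eq_of_eventuallyEq (fun z _ => hd1.analyticAt z : AnalyticOnNhd ℂ _ Set.univ)
    (fun z _ => hL'.diff.analyticAt z) hev
  have := congrFun h3 s
  simp only [Function.comp_apply] at this
  exact this.symm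

/-- polynomial growth in the upper half plane -/
def Gro (Z : ℂ → ℂ) : Prop := ∃ A : ℝ, ∀ s : ℂ, 1 / 16 ≤ s.re → 1 ≤ s.im → ‖Z s‖ ≤ A * s.im ^ A

theorem lfn_gen {k N : ℕ} {ps lam : ℕ → ℂ} {Z : ℂ → ℂ} (hfm : Frm k N ps lam) (hL : IsL lam Z)
    (hu : Gro Z) (hl : Gro (fun s => conj (Z (conj s)))) : Pool.Agent.Y24.GL.LFn Z where
  diff := hL.diff
  low := by
    obtain ⟨c, K, hc, -, h⟩ := rgt_of hfm hL 1 one_pos
    exact ⟨c, hc, fun z hz => (h z (by linarith)).1⟩
  ne := fun z hz h0 => by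
    obtain ⟨c, K, hc, -, h⟩ := rgt_of hfm hL (z.re - 1) (by linarith)
    have := (h z (by linarith)).1
    rw [h0, norm_zero] at this
    linarith
  gro := fun A => by
    obtain ⟨a1, ha1⟩ := hu
    obtain ⟨a2, ha2⟩ := hl
    obtain ⟨a, ha⟩ : ∃ a : ℝ, a = max |a1| |a2| := ⟨_, rfl⟩
    have hA1 : |a1| ≤ a := by rw [ha]; exact le_max_left _ _
    have hA2 : |a2| ≤ a := by rw [ha]; exact le_max_right _ _
    have ha0 : 0 ≤ a := (abs_nonneg _).trans hA1
    have hK : IsCompact (Set.Icc (1 / 4) A ×ℂ Set.Icc (-1) 1) := isCompact_Icc.reProdIm isCompact_Icc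
    obtain ⟨M, hM⟩ := hK.exists_bound_of_continuousOn hL.diff.continuous.continuousOn
    have hMM := le_abs_self M
    have hM0 := abs_nonneg M
    have key : ∀ (b x y : ℝ), |b| ≤ a → 1 ≤ y → x ≤ b * y ^ b → x ≤ (a + |M| + 1) * (1 + |y|) ^ ⌈a⌉₊ := by
      intro b x y hb hy hx
      have h4 : |y| = y := abs_of_nonneg (by linarith)
      rw [h4]
      have h5 : y ^ b ≤ (1 + y) ^ ⌈a⌉₊ := by
        calc y ^ b ≤ y ^ (⌈a⌉₊ : ℝ) := by
              apply Real.rpow_le_rpow_of_exponent_le hy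
              exact ((le_abs_self b).trans hb).trans (Nat.le_ceil _)
          _ = y ^ ⌈a⌉₊ := Real.rpow_natCast _ _
          _ ≤ _ := by gcongr; linarith
      have h6 : 0 ≤ y ^ b := Real.rpow_nonneg (by linarith) _
      calc x ≤ b * y ^ b := hx
        _ ≤ a * y ^ b := mul_le_mul_of_nonneg_right ((le_abs_self b).trans hb) h6
        _ ≤ a * (1 + y) ^ ⌈a⌉₊ := mul_le_mul_of_nonneg_left h5 ha0
        _ ≤ _ := by
            apply mul_le_mul_of_nonneg_right (by linarith)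
            positivity
    refine ⟨a + |M| + 1, ⌈a⌉₊, by positivity, fun z h1 h2 => ?_⟩
    rcases le_or_gt 1 z.im with h3 | h3
    · exact key a1 _ _ hA1 h3 (ha1 z (by linarith) h3)
    · rcases le_or_gt z.im (-1) with h4 | h4
      · have h5 := ha2 (conj z) (by rw [Complex.conj_re]; linarith) (by rw [Complex.conj_im]; linarith)
        simp only [Complex.conj_conj, Complex.norm_conj] at h5
        have h6 := key a2 _ _ hA2 (by rw [Complex.conj_im]; linarith) h5
        rwa [Complex.conj_im, abs_neg] at h6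
      · have h5 := hM z ⟨⟨h1, h2⟩, ⟨h4.le, h3.le⟩⟩
        have h6 : (1 : ℝ) ≤ (1 + |z.im|) ^ ⌈a⌉₊ := one_le_pow₀ (by linarith [abs_nonneg z.im])
        have h7 : ‖Z z‖ ≤ a + |M| + 1 := by linarith
        calc ‖Z z‖ ≤ (a + |M| + 1) * 1 := by rw [mul_one]; exact h7
          _ ≤ _ := mul_le_mul_of_nonneg_left h6 (by positivity)

variable {k N : ℕ} {ps lam : ℕ → ℂ} {c0 : ℝ} {u : ℂ} {X Z : ℂ → ℂ}

/-- the modulus is not constant on any horizontal line -/
theorem big_of (hk : 1 ≤ k) (hf : Frm k N ps lam) (hL : IsL lam Z) (hD : LData k c0 u X Z)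
    (hst : ∀ s : ℂ, X s = 0 → |s.re| ≤ 1 / 2) (t : ℝ) :
    ∃ x x' : ℝ, ‖X (x + t * I : ℂ)‖ ≠ ‖X (x' + t * I : ℂ)‖ := by
  by_contra hcon
  push Not at hcon
  obtain ⟨c1, K1, hc1, hK1, h⟩ := rgt_of hf hL 1 one_pos
  have hc0 := hD.c_pos
  obtain ⟨x, hx1, hx2⟩ : ∃ x : ℝ, 2 ≤ x ∧ K1 < c0 * c1 * x := by
    refine ⟨max 2 (K1 / (c0 * c1) + 1), le_max_left _ _, ?_⟩
    have h1 := le_max_right 2 (K1 / (c0 * c1) + 1)
    have h2 : 0 < c0 * c1 := by positivity
    have h3 : K1 < c0 * c1 * (K1 / (c0 * c1) + 1) := by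
      rw [mul_add, mul_div_cancel₀ _ h2.ne']
      linarith
    exact h3.trans_le (mul_le_mul_of_nonneg_left h1 h2.le)
  obtain ⟨w, hw⟩ : ∃ w : ℂ, w = x + t * I := ⟨_, rfl⟩
  have hwre : w.re = x := by rw [hw]; simp
  have hw1 : ((x + 1 : ℝ) : ℂ) + t * I = w + 1 := by
    rw [hw]; push_cast; ring
  have heq := hcon (x + 1) x
  rw [hw1, ← hw] at heq
  have hne : X w ≠ 0 := by
    intro h0
    have h1 := hst w h0
    rw [hwre] at h1
    have := le_abs_self x
    linarith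
  have e1 := hD.eq w (Or.inr (by rw [hwre]; linarith))
  have e2 := hD.eq (w + 1) (Or.inr (by rw [Complex.add_re, hwre, Complex.one_re]; linarith))
  have hk0 : (0 : ℝ) ≤ (k : ℝ) / 2 := by positivity
  have hwA : w + (((k : ℝ) / 2 : ℝ) : ℂ) ≠ 0 := by
    intro h0
    have := congrArg Complex.re h0
    rw [Complex.add_re, hwre, Complex.ofReal_re, Complex.zero_re] at this
    linarith
  have hH : Hg c0 ((k : ℝ) / 2) (w + 1) = c0 * (w + (((k : ℝ) / 2 : ℝ) : ℂ)) * Hg c0 ((k : ℝ) / 2) w := by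
    unfold Hg
    have h1 : w + 1 + (((k : ℝ) / 2 : ℝ) : ℂ) = (w + (((k : ℝ) / 2 : ℝ) : ℂ)) + 1 := by ring
    rw [h1, Complex.Gamma_add_one _ hwA, Complex.cpow_add _ _ (by exact_mod_cast hc0.ne'), Complex.cpow_one]
    ring
  have hn1 : ‖X (w + 1)‖ = ‖u * Hg c0 ((k : ℝ) / 2) w‖ * (c0 * ‖w + (((k : ℝ) / 2 : ℝ) : ℂ)‖) * ‖Z (1 / 2 + (w + 1))‖ := by
    rw [e2, hH]
    simp only [norm_mul, Complex.norm_real, Real.norm_eq_abs, abs_of_pos hc0]
    ring
  have hn2 : ‖X w‖ = ‖u * Hg c0 ((k : ℝ) / 2) w‖ * ‖Z (1 / 2 + w)‖ := by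
    rw [e1]
    simp only [norm_mul]
  have h1 := (h (1 / 2 + (w + 1)) (by
    have : (1 / 2 + (w + 1) : ℂ).re = 1 / 2 + (x + 1) := by simp [hwre]
    rw [this]; linarith)).1
  have h2 := (h (1 / 2 + w) (by
    have : (1 / 2 + w : ℂ).re = 1 / 2 + x := by simp [hwre]
    rw [this]; linarith)).2.1
  have h3 : x ≤ ‖w + (((k : ℝ) / 2 : ℝ) : ℂ)‖ := by
    have h4 := Complex.re_le_norm (w + (((k : ℝ) / 2 : ℝ) : ℂ))
    rw [Complex.add_re, hwre, Complex.ofReal_re] at h4
    linarith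
  have hg : 0 < ‖u * Hg c0 ((k : ℝ) / 2) w‖ := by
    rw [norm_pos_iff]
    intro h0
    rw [h0, zero_mul] at e1
    exact hne e1
  rw [hn1, hn2] at heq
  have h5 : (c0 * ‖w + (((k : ℝ) / 2 : ℝ) : ℂ)‖) * ‖Z (1 / 2 + (w + 1))‖ = ‖Z (1 / 2 + w)‖ := by
    apply mul_left_cancel₀ hg.ne'
    rw [← mul_assoc]
    exact heq
  have h6 : c0 * x * c1 ≤ (c0 * ‖w + (((k : ℝ) / 2 : ℝ) : ℂ)‖) * ‖Z (1 / 2 + (w + 1))‖ :=
    mul_le_mul (mul_le_mul_of_nonneg_left h3 hc0.le) h1 hc1.le (mul_nonneg hc0.le (norm_nonneg _))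
  have h7 : c0 * c1 * x = c0 * x * c1 := by ring
  linarith

/-- the completed function has the properties `Ap` -/
theorem ap_L (hk : 1 ≤ k) (hf : Frm k N ps lam) (hL : IsL lam Z) (hD : LData k c0 u X Z) : Ap X := by
  have hst := strip_of hf hL hD
  exact ap_of hD.diff hD.symm (cg_of hf hL hD).slow hst (big_of hk hf hL hD hst)

theorem ncard_le_order {F : ℂ → ℂ} (hF : Differentiable ℂ F) (hne : ∃ z, F z ≠ 0) {A : Set ℂ} (hA : A.Finite)
    (h0 : ∀ z ∈ A, F z = 0) : (A.ncard : ℝ) ≤ ∑ᶠ z ∈ A, (analyticOrderNatAt F z : ℝ) := by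
  classical
  rw [finsum_mem_eq_finite_toFinset_sum _ hA, Set.ncard_eq_toFinset_card _ hA, Finset.card_eq_sum_ones]
  push_cast
  refine Finset.sum_le_sum fun z hz => ?_
  rw [Set.Finite.mem_toFinset] at hz
  have htop : analyticOrderAt F z ≠ ⊤ := by
    intro h
    rw [analyticOrderAt_eq_top] at h
    obtain ⟨w, hw⟩ := hne
    have h3 : AnalyticOnNhd ℂ F Set.univ := fun z _ => hF.analyticAt z
    exact hw (h3.eqOn_zero_of_preconnected_of_eventuallyEq_zero isPreconnected_univ (Set.mem_univ z) h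
      (Set.mem_univ w))
  have h1 : analyticOrderNatAt F z ≠ 0 := by
    intro h6
    have h7 : analyticOrderAt F z = 0 := by
      rw [← Nat.cast_analyticOrderNatAt htop, h6]
      rfl
    exact ((hF.analyticAt z).analyticOrderAt_eq_zero.mp h7) (h0 z hz)
  exact_mod_cast Nat.one_le_iff_ne_zero.2 h1

/-- zeros off the line -/
theorem cnt_S (hk : 1 ≤ k) (hf : Frm k N ps lam) (hL : IsL lam Z) (hD : LData k c0 u X Z)
    (hlf : Pool.Agent.Y24.GL.LFn Z) {c : ℝ} (hc : c < 1) : ∃ C : ℝ, 0 < C ∧ ∀ δ T : ℝ, 0 ≤ δ → 2 ≤ T →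
      (S X δ T).Finite ∧ ((S X δ T).ncard : ℝ) ≤ C * T ^ (1 - c * δ) * Real.log T := by
  classical
  have hst := strip_of hf hL hD
  obtain ⟨C, hC, h⟩ := Pool.Agent.Y24.GL.density hlf
    (fun κ h1 h2 => Pool.Agent.Y24.GL.mol hf hL (by linarith) h2.le) hc
  have hZne : ∃ z, Z z ≠ 0 := ⟨2, fun h0 => hlf.ne 2 (by norm_num) h0⟩
  refine ⟨2 * C, by positivity, fun δ T hδ hT => ?_⟩
  have hlog : 0 ≤ Real.log T := Real.log_nonneg (by linarith)
  have hT0 : 0 ≤ T := by linarith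
  have hpow : 0 ≤ T ^ (1 - c * δ) := Real.rpow_nonneg hT0 _
  rcases le_or_gt δ (1 / 2) with hd2 | hd2
  · have hB := h (1 / 2 + δ) T (by linarith) (by linarith) hT
    rw [add_sub_cancel_left] at hB
    have hZ0 : ∀ w : ℂ, 0 < w.im → X w = 0 → Z (1 / 2 + w) = 0 := by
      intro w hw h0
      rw [hD.eq w (Or.inl hw)] at h0
      refine (mul_eq_zero.1 h0).resolve_left ?_
      refine mul_ne_zero hD.u_ne (mul_ne_zero ?_ ?_)
      · rw [Ne, Complex.cpow_eq_zero_iff]
        intro h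
        have := hD.c_pos.ne'
        exact this (by exact_mod_cast h.1)
      · apply Complex.Gamma_ne_zero
        intro m hm
        have := congrArg Complex.im hm
        simp at this
        linarith
    obtain ⟨W, hW⟩ : ∃ W : Set ℂ, W = Pool.Agent.Y24.GL.ZF Z (1 / 2 + δ) T := ⟨_, rfl⟩
    rw [← hW] at hB
    obtain ⟨hfin, hsum⟩ := hB
    have hcard : (W.ncard : ℝ) ≤ C * T ^ (1 - c * δ) * Real.log T :=
      (ncard_le_order hL.diff hZne hfin (fun z hz => by rw [hW] at hz; exact hz.1)).trans hsum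
    have hsub : S X δ T ⊆ (fun ρ : ℂ => ρ - 1 / 2) '' W ∪ (fun ρ : ℂ => -(conj (ρ - 1 / 2))) '' W := by
      rintro b ⟨hb1, hb2, hb3, hb4⟩
      rcases le_abs.1 hb2 with h2 | h2
      · left
        refine ⟨1 / 2 + b, ?_, by ring⟩
        rw [hW]
        refine ⟨hZ0 b hb3 hb1, ?_, ?_, ?_⟩
        · have : (1 / 2 + b : ℂ).re = 1 / 2 + b.re := by simp
          rw [this]; linarith
        · have : (1 / 2 + b : ℂ).im = b.im := by simp
          rw [this]; exact hb3
        · have : (1 / 2 + b : ℂ).im = b.im := by simp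
          rw [this]; exact hb4
      · right
        have him : (-(conj b)).im = b.im := by simp
        have hre : (-(conj b)).re = -b.re := by simp
        refine ⟨1 / 2 + -(conj b), ?_, ?_⟩
        · rw [hW]
          refine ⟨hZ0 _ (by rw [him]; exact hb3) (by rw [hD.symm, hb1, map_zero]), ?_, ?_, ?_⟩
          · have : (1 / 2 + -(conj b) : ℂ).re = 1 / 2 + -b.re := by simp
            rw [this]; linarith
          · have : (1 / 2 + -(conj b) : ℂ).im = b.im := by simp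
            rw [this]; exact hb3
          · have : (1 / 2 + -(conj b) : ℂ).im = b.im := by simp
            rw [this]; exact hb4
        · show -(conj (1 / 2 + -(conj b) - 1 / 2)) = b
          rw [add_sub_cancel_left, map_neg, Complex.conj_conj, neg_neg]
    have hfin2 : ((fun ρ : ℂ => ρ - 1 / 2) '' W ∪ (fun ρ : ℂ => -(conj (ρ - 1 / 2))) '' W).Finite :=
      (hfin.image _).union (hfin.image _)
    refine ⟨hfin2.subset hsub, ?_⟩
    have h3 : (S X δ T).ncard ≤ W.ncard + W.ncard :=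
      (Set.ncard_le_ncard hsub hfin2).trans ((Set.ncard_union_le _ _).trans
        (add_le_add (Set.ncard_image_le hfin) (Set.ncard_image_le hfin)))
    have h4 : ((S X δ T).ncard : ℝ) ≤ (W.ncard : ℝ) + W.ncard := by exact_mod_cast h3
    calc ((S X δ T).ncard : ℝ) ≤ (W.ncard : ℝ) + W.ncard := h4
      _ ≤ C * T ^ (1 - c * δ) * Real.log T + C * T ^ (1 - c * δ) * Real.log T := add_le_add hcard hcard
      _ = _ := by ring
  · have hemp : S X δ T = ∅ := by
      rw [Set.eq_empty_iff_forall_notMem]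
      rintro b ⟨h1, h2, -, -⟩
      have h3 := hst _ h1
      linarith
    rw [hemp]
    refine ⟨Set.finite_empty, ?_⟩
    rw [Set.ncard_empty]
    push_cast
    exact mul_nonneg (mul_nonneg (by positivity) hpow) hlog

/-- the growth theorem for one form -/
theorem grow_L (hk : 1 ≤ k) (hf : Frm k N ps lam) (hL : IsL lam Z) (hD : LData k c0 u X Z)
    (hlf : Pool.Agent.Y24.GL.LFn Z) {c : ℝ} (hc : c < 1) :
    ∃ C' : ℝ, 0 < C' ∧ ∀ r T : ℝ, 0 ≤ r → 2 ≤ T →
      volume (Bad X (r / Real.log T) T) ≤ ENNReal.ofReal (C' * Real.exp (-(c * r)) * T) :=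
  (ap_L hk hf hL hD).bad_all (fun _ hc => cnt_S hk hf hL hD hlf hc) hc

end

end Pool.Agent.X284.HG
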