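import Pool.Agent.X284.HG.Ab

set_option autoImplicit false

/-! Transfer of the results from `z` to `s = c + z`. -/

namespace Pool.Agent.X284.HG

open Complex Filter Topology MeasureTheory
open scoped ComplexConjugate

noncomputable section

variable {ι : Type*} [Fintype ι] [Nonempty ι] {X : ι → ℂ → ℂ} {Λ : ℂ → ℂ} {v : ℂ} {a : ℝ}

/-- the zeros of `Λ` at distance at least `δ` from the line `Re s = a` -/
def OffA (a : ℝ) (Λ : ℂ → ℂ) (δ T : ℝ) : Set ℂ := {s | Λ s = 0 ∧ δ ≤ |s.re - a| ∧ 0 < s.im ∧ s.im ≤ T}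

/-- the heights at which the growth fails -/
def BadA (a : ℝ) (Λ : ℂ → ℂ) (h T : ℝ) : Set ℝ :=
  {t : ℝ | 0 ≤ t ∧ t ≤ T ∧ ¬ StrictMonoOn (fun x : ℝ => ‖Λ (a + x + t * I)‖) (Set.Ici h)}

theorem mono_iff (hv : v ≠ 0) {F : ℂ → ℂ} (hX : ∀ z : ℂ, F z = v * Λ (a + z)) (h t : ℝ) :
    StrictMonoOn (fun x : ℝ => ‖Λ (a + x + t * I)‖) (Set.Ici h) ↔
      StrictMonoOn (fun x : ℝ => ‖F (x + t * I)‖) (Set.Ici h) := by
  have hn : 0 < ‖v‖ := norm_pos_iff.2 hv
  have e : ∀ x t : ℝ, ‖F (x + t * I)‖ = ‖v‖ * ‖Λ (a + x + t * I)‖ := by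
    intro x t
    rw [hX, norm_mul, add_assoc]
  constructor
  · intro hm x hx y hy hxy
    have h1 := hm hx hy hxy
    simp only [e] at h1 ⊢
    exact mul_lt_mul_of_pos_left h1 hn
  · intro hm x hx y hy hxy
    have h1 := hm hx hy hxy
    simp only [e] at h1 ⊢
    exact lt_of_mul_lt_mul_left h1 hn.le

theorem badA_eq (hv : v ≠ 0) {F : ℂ → ℂ} (hX : ∀ z : ℂ, F z = v * Λ (a + z)) (h T : ℝ) :
    BadA a Λ h T = Bad F h T := by
  unfold BadA Bad
  simp only [mono_iff hv hX]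

/-- orders are not changed by the translation -/
theorem order_tr (hv : v ≠ 0) (hΛ : Differentiable ℂ Λ) {F : ℂ → ℂ} (hX : ∀ z : ℂ, F z = v * Λ (a + z)) (z : ℂ) :
    analyticOrderNatAt F z = analyticOrderNatAt Λ (a + z) := by
  have h0 : F = (fun _ => v) * ((fun s => Λ s) ∘ fun z : ℂ => (a : ℂ) + z) := funext fun z => hX z
  have h1 : AnalyticAt ℂ (fun z : ℂ => (a : ℂ) + z) z := analyticAt_const.add analyticAt_id
  have h2 : HasDerivAt (fun z : ℂ => (a : ℂ) + z) 1 z := (hasDerivAt_id z).const_add _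
  have h3 : deriv (fun z : ℂ => (a : ℂ) + z) z ≠ 0 := by
    rw [h2.deriv]
    exact one_ne_zero
  have h4 := analyticOrderAt_comp_of_deriv_ne_zero (f := Λ) h1 h3
  have h5 : AnalyticAt ℂ (Λ ∘ fun z : ℂ => (a : ℂ) + z) z :=
    (hΛ.comp (by fun_prop : Differentiable ℂ fun z : ℂ => (a : ℂ) + z)).analyticAt z
  have h6 : analyticOrderAt (fun _ : ℂ => v) z = 0 := (analyticAt_const.analyticOrderAt_eq_zero).2 hv
  unfold analyticOrderNatAt
  rw [h0, analyticOrderAt_mul analyticAt_const h5, h6, zero_add]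
  exact congrArg ENat.toNat h4

/-- the density theorem for the product -/
theorem density_all (hX : ∀ i, Good (X i)) (hv : v ≠ 0) (hΛ : Differentiable ℂ Λ)
    (hXe : ∀ z : ℂ, ∏ i, X i z = v * Λ (a + z)) {c : ℝ} (hc : c < 1) :
    ∃ C : ℝ, 0 < C ∧ ∀ δ T : ℝ, 0 ≤ δ → 2 ≤ T → (OffA a Λ δ T).Finite ∧
      ((∑ᶠ s ∈ OffA a Λ δ T, analyticOrderNatAt Λ s : ℕ) : ℝ) ≤ C * T ^ (1 - c * δ) * Real.log T := by
  classical
  obtain ⟨C, hC, h⟩ := off_prod_all hX hc
  have hne : ∃ z, Λ z ≠ 0 := by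
    have h1 : ∏ i, X i 1 ≠ 0 := by
      refine Finset.prod_ne_zero_iff.2 fun i _ h0 => ?_
      have := (hX i).ap.strip 1 h0
      norm_num at this
    rw [hXe] at h1
    exact ⟨_, right_ne_zero_of_mul h1⟩
  refine ⟨C, hC, fun δ T hδ hT => ?_⟩
  refine fin_of hΛ hne (fun z hz => hz.1) fun W hW => ?_
  have hinj : Function.Injective (fun s : ℂ => s - a) := fun x y hxy => by simpa using hxy
  have h1 := h δ T hδ hT (W.map ⟨_, hinj⟩) (by
    intro s hs
    obtain ⟨b, hb, rfl⟩ := Finset.mem_map.1 hs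
    obtain ⟨k1, k2, k3, k4⟩ := hW b hb
    refine ⟨?_, ?_, ?_, ?_⟩
    · show ∏ i, X i (b - a) = 0
      rw [hXe, add_sub_cancel, k1, mul_zero]
    · show δ ≤ |(b - a).re|
      rw [Complex.sub_re, Complex.ofReal_re]
      exact k2
    · show 0 < (b - a).im
      rw [Complex.sub_im, Complex.ofReal_im, sub_zero]
      exact k3
    · show (b - a).im ≤ T
      rw [Complex.sub_im, Complex.ofReal_im, sub_zero]
      exact k4)
  rw [Finset.sum_map] at h1
  refine le_trans (le_of_eq (Finset.sum_congr rfl fun s _ => ?_)) h1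
  have h2 := order_tr hv hΛ hXe (s - a)
  rw [add_sub_cancel] at h2
  exact_mod_cast h2.symm

/-- the growth theorem for the product -/
theorem growth_all (hX : ∀ i, Good (X i)) (hv : v ≠ 0)
    (hXe : ∀ z : ℂ, ∏ i, X i z = v * Λ (a + z)) :
    ((∀ s : ℂ, Λ s = 0 → s.re = a) ↔
      ∀ t : ℝ, StrictMonoOn (fun x : ℝ => ‖Λ (a + x + t * I)‖) (Set.Ici 0)) ∧
    ∀ c : ℝ, c < 1 → ∃ C : ℝ, 0 < C ∧ ∀ r T : ℝ, 0 ≤ r → 2 ≤ T →
      volume (BadA a Λ (r / Real.log T) T) ≤ ENNReal.ofReal (C * Real.exp (-(c * r)) * T) := by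
  classical
  refine ⟨⟨fun hRH t => ?_, fun hB s hs => ?_⟩, fun c hc => ?_⟩
  · rw [mono_iff hv hXe]
    refine strict_all hX (fun b hb => ?_) t
    rw [hXe] at hb
    have h1 := hRH _ ((mul_eq_zero.1 hb).resolve_left hv)
    rw [Complex.add_re, Complex.ofReal_re] at h1
    linarith
  · by_contra hne
    obtain ⟨s2, h3, h4⟩ : ∃ s2 : ℂ, Λ s2 = 0 ∧ a < s2.re := by
      rcases lt_or_gt_of_ne hne with h | h
      · refine ⟨(2 * a : ℝ) - conj s, ?_, ?_⟩
        · have h1 : ∏ i, X i (s - a) = 0 := by rw [hXe, add_sub_cancel, hs, mul_zero]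
          obtain ⟨i, hi, h2⟩ := Finset.prod_eq_zero_iff.1 h1
          have h3 : X i (-(conj (s - a))) = 0 := by rw [(hX i).ap.symm, h2, map_zero]
          have h4 : ∏ i, X i (-(conj (s - a))) = 0 := Finset.prod_eq_zero hi h3
          rw [hXe] at h4
          have h5 := (mul_eq_zero.1 h4).resolve_left hv
          have h6 : (a : ℂ) + -(conj (s - a)) = (2 * a : ℝ) - conj s := by
            rw [map_sub, Complex.conj_ofReal]
            push_cast
            ring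
          rwa [h6] at h5
        · rw [Complex.sub_re, Complex.ofReal_re, Complex.conj_re]
          linarith
      · exact ⟨s, hs, h⟩
    have h7 := hB s2.im (show (0 : ℝ) ∈ Set.Ici (0 : ℝ) from Set.mem_Ici.2 le_rfl)
      (show s2.re - a ∈ Set.Ici (0 : ℝ) from by rw [Set.mem_Ici]; linarith) (by linarith)
    have h8 : ((a : ℂ) + ((s2.re - a : ℝ) : ℂ) + (s2.im : ℂ) * I) = s2 := by
      apply Complex.ext <;> simp
    simp only [h8, h3, norm_zero] at h7
    exact absurd h7 (not_lt.mpr (norm_nonneg _))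
  · obtain ⟨C, hC, h⟩ := grow_prod_all hX hc
    refine ⟨C, hC, fun r T hr hT => ?_⟩
    rw [badA_eq hv hXe]
    exact h r T hr hT

end

end Pool.Agent.X284.HG
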