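import Pool.Agent.Y771.NF.Dn
import Pool.Agent.X284.HG.Lf

set_option autoImplicit false

/-! Zeros off the line with multiplicity; products. -/

namespace Pool.Agent.X284.HG

open Complex Filter Topology MeasureTheory
open Pool.Agent.Y671.GL
open scoped ComplexConjugate

noncomputable section

variable {k N : ℕ} {ps lam : ℕ → ℂ} {c0 : ℝ} {u : ℂ} {X Z : ℂ → ℂ}

/-- bound for the zeros off the line counted with multiplicity -/
def OffB (X : ℂ → ℂ) (c C : ℝ) : Prop := ∀ δ T : ℝ, 0 ≤ δ → 2 ≤ T → ∀ W : Finset ℂ,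
  (∀ s ∈ W, X s = 0 ∧ δ ≤ |s.re| ∧ 0 < s.im ∧ s.im ≤ T) →
    ∑ s ∈ W, (analyticOrderNatAt X s : ℝ) ≤ C * T ^ (1 - c * δ) * Real.log T

theorem off_L (hk : 1 ≤ k) (hf : Frm k N ps lam) (hL : IsL lam Z) (hD : LData k c0 u X Z)
    (hlf : Pool.Agent.Y24.GL.LFn Z) {c : ℝ} (hc : c < 1) : ∃ C : ℝ, 0 < C ∧ OffB X c C := by
  classical
  have hst := strip_of hf hL hD
  have hX := hD.diff
  obtain ⟨C, hC, h⟩ := Pool.Agent.Y24.GL.density hlf
    (fun κ h1 h2 => Pool.Agent.Y24.GL.mol hf hL (by linarith) h2.le) hc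
  refine ⟨2 * C, by positivity, fun δ T hδ hT W hW => ?_⟩
  have hlog : 0 ≤ Real.log T := Real.log_nonneg (by linarith)
  have hT0 : 0 ≤ T := by linarith
  have hpow : 0 ≤ T ^ (1 - c * δ) := Real.rpow_nonneg hT0 _
  rcases le_or_gt δ (1 / 2) with hd2 | hd2
  · have hB := h (1 / 2 + δ) T (by linarith) (by linarith) hT
    rw [add_sub_cancel_left] at hB
    have hZ0 : ∀ w : ℂ, 0 < w.im → X w = 0 → Z (1 / 2 + w) = 0 := by
      intro w hw h0
      rw [hD.eq w (Or.inl hw)] at h0
      refine (mul_eq_zero.1 h0).resolve_left ?_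
      refine mul_ne_zero hD.u_ne (mul_ne_zero ?_ ?_)
      · rw [Ne, Complex.cpow_eq_zero_iff]
        intro h
        have := hD.c_pos.ne'
        exact this (by exact_mod_cast h.1)
      · apply Complex.Gamma_ne_zero
        intro m hm
        have := congrArg Complex.im hm
        simp at this
        linarith
    rw [← Finset.sum_filter_add_sum_filter_not W (fun w => δ ≤ w.re)]
    have hp : ∑ w ∈ W.filter (fun w => δ ≤ w.re), (analyticOrderNatAt X w : ℝ) ≤
        C * T ^ (1 - c * δ) * Real.log T := by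
      refine Pool.Agent.Y771.NF.half_sum (φ := fun w => 1 / 2 + w) (fun a _ b _ hab => add_left_cancel hab) ?_ ?_ hB
      · intro w hw
        obtain ⟨h1, h2⟩ := Finset.mem_filter.1 hw
        obtain ⟨h3, h4, h5, h6⟩ := hW w h1
        refine ⟨hZ0 w h5 h3, ?_, ?_, ?_⟩
        · simp
          linarith
        · simp
          exact h5
        · simp
          exact h6
      · intro w hw
        obtain ⟨h1, h2⟩ := Finset.mem_filter.1 hw
        obtain ⟨h3, h4, h5, h6⟩ := hW w h1
        exact Pool.Agent.Y771.NF.ord_L hk hD hL.diff h5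
    have hm : ∑ w ∈ W.filter (fun w => ¬ δ ≤ w.re), (analyticOrderNatAt X w : ℝ) ≤
        C * T ^ (1 - c * δ) * Real.log T := by
      refine Pool.Agent.Y771.NF.half_sum (φ := fun w => 1 / 2 + -(conj w)) (fun a _ b _ hab => ?_) ?_ ?_ hB
      · have h1 : -(conj a) = -(conj b) := add_left_cancel hab
        exact (starRingEnd ℂ).injective (neg_injective h1)
      · intro w hw
        obtain ⟨h1, h2⟩ := Finset.mem_filter.1 hw
        obtain ⟨h3, h4, h5, h6⟩ := hW w h1
        have h7 : X (-(conj w)) = 0 := by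
          rw [hD.symm, h3, map_zero]
        have him : (-(conj w)).im = w.im := by simp
        have hre : (-(conj w)).re = -w.re := by simp
        refine ⟨hZ0 _ (by rw [him]; exact h5) h7, ?_, ?_, ?_⟩
        · have h8 : δ ≤ -w.re := by
            rcases le_abs.1 h4 with h9 | h9
            · exact absurd h9 h2
            · exact h9
          simp
          linarith
        · simp
          exact h5
        · simp
          exact h6
      · intro w hw
        obtain ⟨h1, h2⟩ := Finset.mem_filter.1 hw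
        obtain ⟨h3, h4, h5, h6⟩ := hW w h1
        have him : (-(conj w)).im = w.im := by simp
        rw [← Pool.Agent.Y771.NF.ordNat_symm hX hD.symm w]
        exact Pool.Agent.Y771.NF.ord_L hk hD hL.diff (by rw [him]; exact h5)
    calc _ ≤ C * T ^ (1 - c * δ) * Real.log T + C * T ^ (1 - c * δ) * Real.log T := add_le_add hp hm
      _ = _ := by ring
  · have hemp : W = ∅ := by
      rw [Finset.eq_empty_iff_forall_notMem]
      intro b hb
      obtain ⟨h1, h2, -, -⟩ := hW b hb
      have h3 := hst _ h1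
      linarith
    rw [hemp, Finset.sum_empty]
    exact mul_nonneg (mul_nonneg (by positivity) hpow) hlog

/-! ### products -/

section prod

variable {ι : Type*}

theorem top_of {F : ℂ → ℂ} (hF : Differentiable ℂ F) (hne : ∃ z, F z ≠ 0) (z : ℂ) : analyticOrderAt F z ≠ ⊤ := by
  intro h
  rw [analyticOrderAt_eq_top] at h
  obtain ⟨w, hw⟩ := hne
  have h3 : AnalyticOnNhd ℂ F Set.univ := fun z _ => hF.analyticAt z
  exact hw (h3.eqOn_zero_of_preconnected_of_eventuallyEq_zero isPreconnected_univ (Set.mem_univ z) h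
    (Set.mem_univ w))

theorem diff_prod (s : Finset ι) (F : ι → ℂ → ℂ) (hF : ∀ i ∈ s, Differentiable ℂ (F i)) :
    Differentiable ℂ (fun z => ∏ i ∈ s, F i z) := by
  classical
  induction s using Finset.induction_on with
  | empty => simp
  | insert a s ha ih =>
    simp only [Finset.prod_insert ha]
    exact (hF a (Finset.mem_insert_self a s)).mul (ih fun i hi => hF i (Finset.mem_insert_of_mem hi))

theorem order_prod (s : Finset ι) (F : ι → ℂ → ℂ) (hF : ∀ i ∈ s, Differentiable ℂ (F i))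
    (hne : ∀ i ∈ s, ∃ z, F i z ≠ 0) (z : ℂ) :
    analyticOrderNatAt (fun z => ∏ i ∈ s, F i z) z = ∑ i ∈ s, analyticOrderNatAt (F i) z := by
  classical
  have key : analyticOrderAt (fun z => ∏ i ∈ s, F i z) z = ∑ i ∈ s, analyticOrderAt (F i) z := by
    induction s using Finset.induction_on with
    | empty =>
      simp only [Finset.prod_empty, Finset.sum_empty]
      exact (analyticAt_const.analyticOrderAt_eq_zero).2 one_ne_zero
    | insert a s ha ih =>
      simp only [Finset.prod_insert ha, Finset.sum_insert ha]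
      have h1 : (fun z => F a z * ∏ i ∈ s, F i z) = F a * fun z => ∏ i ∈ s, F i z := rfl
      rw [h1, analyticOrderAt_mul ((hF a (Finset.mem_insert_self a s)).analyticAt z)
        ((diff_prod s F fun i hi => hF i (Finset.mem_insert_of_mem hi)).analyticAt z),
        ih (fun i hi => hF i (Finset.mem_insert_of_mem hi)) (fun i hi => hne i (Finset.mem_insert_of_mem hi))]
  have h2 : ∀ i ∈ s, analyticOrderAt (F i) z = ((analyticOrderNatAt (F i) z : ℕ) : ℕ∞) := fun i hi =>
    (Nat.cast_analyticOrderNatAt (top_of (hF i hi) (hne i hi) z)).symm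
  rw [Finset.sum_congr rfl h2, ← Nat.cast_sum] at key
  unfold analyticOrderNatAt at key ⊢
  rw [key, ENat.toNat_coe]

theorem offB_prod (s : Finset ι) (F : ι → ℂ → ℂ) (hF : ∀ i ∈ s, Differentiable ℂ (F i))
    (hne : ∀ i ∈ s, ∃ z, F i z ≠ 0) {c : ℝ} (C : ι → ℝ) (h : ∀ i ∈ s, OffB (F i) c (C i)) :
    OffB (fun z => ∏ i ∈ s, F i z) c (∑ i ∈ s, C i) := by
  classical
  intro δ T hδ hT W hW
  have h1 : ∀ w ∈ W, (analyticOrderNatAt (fun z => ∏ i ∈ s, F i z) w : ℝ) = ∑ i ∈ s, (analyticOrderNatAt (F i) w : ℝ) := by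
    intro w _
    rw [order_prod s F hF hne w]
    push_cast
    rfl
  rw [Finset.sum_congr rfl h1, Finset.sum_comm, Finset.sum_mul, Finset.sum_mul]
  refine Finset.sum_le_sum fun i hi => ?_
  have h2 : ∑ w ∈ W, (analyticOrderNatAt (F i) w : ℝ) = ∑ w ∈ W.filter (fun w => F i w = 0), (analyticOrderNatAt (F i) w : ℝ) := by
    rw [Finset.sum_filter]
    refine Finset.sum_congr rfl fun w _ => ?_
    split_ifs with h3
    · rfl
    · have h4 : analyticOrderAt (F i) w = 0 := ((hF i hi).analyticAt w).analyticOrderAt_eq_zero.2 h3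
      unfold analyticOrderNatAt
      rw [h4]
      simp
  rw [h2]
  refine h i hi δ T hδ hT _ fun w hw => ?_
  rw [Finset.mem_filter] at hw
  exact ⟨hw.2, (hW w hw.1).2⟩

theorem strict_prod (s : Finset ι) (hs : s.Nonempty) (F : ι → ℂ → ℂ) (h t : ℝ)
    (hall : ∀ i ∈ s, StrictMonoOn (fun x : ℝ => ‖F i (x + t * I : ℂ)‖) (Set.Ici h)) :
    StrictMonoOn (fun x : ℝ => ‖∏ i ∈ s, F i (x + t * I : ℂ)‖) (Set.Ici h) := by
  intro x hx y hy hxy
  simp only [norm_prod]
  have hlt : ∀ i ∈ s, ‖F i (x + t * I : ℂ)‖ < ‖F i (y + t * I : ℂ)‖ := fun i hi => hall i hi hx hy hxy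
  have hpos : 0 < ∏ i ∈ s, ‖F i (y + t * I : ℂ)‖ :=
    Finset.prod_pos fun i hi => (norm_nonneg _).trans_lt (hlt i hi)
  by_cases h0' : ∃ i ∈ s, ‖F i (x + t * I : ℂ)‖ = 0
  · obtain ⟨i, hi, h1⟩ := h0'
    rw [Finset.prod_eq_zero hi h1]
    exact hpos
  · push Not at h0'
    exact Finset.prod_lt_prod_of_nonempty
      (fun i hi => lt_of_le_of_ne (norm_nonneg _) (Ne.symm (h0' i hi))) hlt hs

theorem bad_prod (s : Finset ι) (hs : s.Nonempty) (F : ι → ℂ → ℂ) (h T : ℝ) :
    Bad (fun z => ∏ i ∈ s, F i z) h T ⊆ ⋃ i ∈ s, Bad (F i) h T := by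
  intro t ht
  obtain ⟨h0, hT, hb⟩ := ht
  by_contra hcon
  apply hb
  refine strict_prod s hs F h t fun i hi => ?_
  by_contra hi2
  exact hcon (Set.mem_biUnion (x := i) hi ⟨h0, hT, hi2⟩)

end prod

end

end Pool.Agent.X284.HG
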