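import Pool.Agent.Y693.GL.Prd
import Pool.Agent.X284.HG.Mult

set_option autoImplicit false

/-! Elliptic curves over abelian number fields: zeros off the line and growth on horizontal lines. -/

namespace Pool.Agent.X284.HG

open UpperHalfPlane hiding I
open MatrixGroups CongruenceSubgroup Filter Topology Complex MeasureTheory
open Pool.Agent.Y671.GL
open Pool.Agent.Y693.GL
open Pool.Agent.W169.HF (IsForm coef)
open Pool.Agent.W355.UN (facE prodE Pk coprime_cond)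
open scoped ComplexConjugate

noncomputable section

/-- the facts for one factor -/
structure Good (X : ℂ → ℂ) : Prop where
  ap : Ap X
  off : ∀ c : ℝ, c < 1 → ∃ C : ℝ, 0 < C ∧ OffB X c C
  grow : ∀ c : ℝ, c < 1 → ∃ C : ℝ, 0 < C ∧ ∀ r T : ℝ, 0 ≤ r → 2 ≤ T →
    volume (Bad X (r / Real.log T) T) ≤ ENNReal.ofReal (C * Real.exp (-(c * r)) * T)

theorem good_L {k N : ℕ} {ps lam : ℕ → ℂ} {c0 : ℝ} {u : ℂ} {X Z : ℂ → ℂ} (hk : 1 ≤ k)
    (hf : Frm k N ps lam) (hL : IsL lam Z) (hD : LData k c0 u X Z)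
    (hlf : Pool.Agent.Y24.GL.LFn Z) : Good X :=
  ⟨ap_L hk hf hL hD, fun _ hc => off_L hk hf hL hD hlf hc, fun _ hc => grow_L hk hf hL hD hlf hc⟩

theorem Good.ne {X : ℂ → ℂ} (h : Good X) : ∃ z, X z ≠ 0 := by
  by_contra hcon
  push Not at hcon
  obtain ⟨x, x', hx⟩ := h.ap.big 0
  exact hx (by rw [hcon, hcon])

variable {N : ℕ} [NeZero N] {f : CuspForm (Gamma0 N : Subgroup (GL (Fin 2) ℝ)) 2} {w : ℝ}

theorem l2_inv {q : ℕ} (χ : DirichletCharacter ℂ q) :
    l2 f χ⁻¹ = fun n => conj (l2 f χ n) := by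
  funext n
  unfold l2
  rw [map_mul, Complex.conj_ofReal]
  congr 1
  have := MulChar.star_apply' χ (n : ZMod q)
  rw [← this]
  rfl

/-- a twist -/
theorem good_tw {q : ℕ} [NeZero q] {χ : DirichletCharacter ℂ q} (hf : IsForm N f w) (hχ : χ.IsPrimitive)
    (hco : Nat.Coprime q N) : ∃ X : ℂ → ℂ, Good X ∧
      ∃ v : ℂ, v ≠ 0 ∧ ∃ σ : ℝ, ∀ s : ℂ, σ ≤ s.re → X (s - 1) = v * facE f χ s := by
  obtain ⟨c, u, X, Z, hD, hL, hv⟩ := ldata_tw hf hχ hco
  have hχ' : (χ⁻¹).IsPrimitive := by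
    rw [DirichletCharacter.isPrimitive_def, DirichletCharacter.conductor_inv]
    exact hχ
  obtain ⟨c', u', X', Z', hD', hL', -⟩ := ldata_tw hf hχ' hco
  have hfrm := frm2 hf hχ hco
  rw [l2_inv] at hL'
  have hconj : (fun s => conj (Z (conj s))) = Z' := funext fun s => (L_conj hL hL' s).symm
  have hlf := lfn_gen hfrm hL hD.gro (by rw [hconj]; exact hD'.gro)
  exact ⟨X, good_L (by norm_num) hfrm hL hD hlf, hv⟩

section
variable {M : ℕ} [NeZero M] (G : Subgroup (DirichletCharacter ℂ M)) [Fintype G]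

/-- all twists of the field -/
theorem good_ab (hf : IsForm N f w) (hco : Nat.Coprime M N) {Λ : ℂ → ℂ} (hd : Differentiable ℂ Λ)
    (hΛ : ∃ σ : ℝ, ∀ s : ℂ, σ ≤ s.re → Λ s = prodE G f s) :
    ∃ X : G → ℂ → ℂ, (∀ χ, Good (X χ)) ∧ ∃ v : ℂ, v ≠ 0 ∧ ∀ z : ℂ, ∏ χ : G, X χ z = v * Λ (1 + z) := by
  classical
  have hone : ∀ χ : G, ∃ X : ℂ → ℂ, Good X ∧
      ∃ v : ℂ, v ≠ 0 ∧ ∃ σ : ℝ, ∀ s : ℂ, σ ≤ s.re →
        X (s - 1) = v * facE f (χ : DirichletCharacter ℂ M).primitiveCharacter s := by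
    intro χ
    haveI : NeZero (χ : DirichletCharacter ℂ M).conductor := ⟨DirichletCharacter.conductor_ne_zero _⟩
    exact good_tw hf (DirichletCharacter.primitiveCharacter_isPrimitive _) (coprime_cond hco _)
  choose X h1 v h4 σ h5 using hone
  obtain ⟨σ', hσ'⟩ := hΛ
  have hv : ∏ χ : G, v χ ≠ 0 := Finset.prod_ne_zero_iff.2 fun χ _ => h4 χ
  refine ⟨X, h1, ∏ χ : G, v χ, hv, ?_⟩
  have hXd : Differentiable ℂ (fun z => ∏ χ : G, X χ z) := diff_prod _ _ fun χ _ => (h1 χ).ap.diff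
  have hd1 : Differentiable ℂ (fun s : ℂ => ∏ χ : G, X χ (s - 1)) :=
    hXd.comp (by fun_prop : Differentiable ℂ fun s : ℂ => s - 1)
  have hd2 : Differentiable ℂ (fun s : ℂ => (∏ χ : G, v χ) * Λ s) := hd.const_mul _
  have he := Pk.uniq (G := fun s => (∏ χ : G, v χ) * prodE G f s) hd2 hd1 ⟨σ', fun s hs => by
    show (∏ χ : G, v χ) * Λ s = (∏ χ : G, v χ) * prodE G f s
    rw [hσ' s hs]⟩ ⟨∑ χ : G, |σ χ|, fun s hs => by
      show ∏ χ : G, X χ (s - 1) = (∏ χ : G, v χ) * prodE G f s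
      unfold prodE
      rw [← Finset.prod_mul_distrib]
      refine Finset.prod_congr rfl fun χ _ => h5 χ s ?_
      refine le_trans ?_ hs
      refine (le_abs_self _).trans ?_
      exact Finset.single_le_sum (f := fun χ : G => |σ χ|) (fun _ _ => abs_nonneg _) (Finset.mem_univ χ)⟩
  intro z
  have h6 := congrFun he (1 + z)
  simp only [add_sub_cancel_left] at h6
  first
    | exact h6
    | exact h6.symm

end

/-! ### from the factors to the product -/

section fin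

variable {ι : Type*} [Fintype ι] [Nonempty ι] {X : ι → ℂ → ℂ} {Λ : ℂ → ℂ} {v : ℂ}

theorem off_prod_all (hX : ∀ i, Good (X i)) {c : ℝ} (hc : c < 1) :
    ∃ C : ℝ, 0 < C ∧ OffB (fun z => ∏ i, X i z) c C := by
  classical
  choose C hC h using fun i => (hX i).off c hc
  exact ⟨∑ i, C i, Finset.sum_pos (fun i _ => hC i) Finset.univ_nonempty,
    offB_prod Finset.univ X (fun i _ => (hX i).ap.diff) (fun i _ => (hX i).ne) C fun i _ => h i⟩

theorem grow_prod_all (hX : ∀ i, Good (X i)) {c : ℝ} (hc : c < 1) :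
    ∃ C : ℝ, 0 < C ∧ ∀ r T : ℝ, 0 ≤ r → 2 ≤ T →
      volume (Bad (fun z => ∏ i, X i z) (r / Real.log T) T) ≤ ENNReal.ofReal (C * Real.exp (-(c * r)) * T) := by
  classical
  choose C hC h using fun i => (hX i).grow c hc
  refine ⟨∑ i, C i, Finset.sum_pos (fun i _ => hC i) Finset.univ_nonempty, fun r T hr hT => ?_⟩
  refine (measure_mono (bad_prod Finset.univ Finset.univ_nonempty X _ T)).trans ?_
  refine (measure_biUnion_finset_le _ _).trans ?_
  refine (Finset.sum_le_sum fun i _ => h i r T hr hT).trans ?_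
  have hT0 : 0 ≤ T := by linarith
  rw [← ENNReal.ofReal_sum_of_nonneg (fun i _ => mul_nonneg (mul_nonneg (hC i).le (Real.exp_pos _).le) hT0),
    Finset.sum_mul, Finset.sum_mul]

/-- a product is strictly increasing if all zeros are on the line -/
theorem strict_all (hX : ∀ i, Good (X i)) (h0 : ∀ (b : ℂ), ∏ i, X i b = 0 → b.re = 0) (t : ℝ) :
    StrictMonoOn (fun x : ℝ => ‖∏ i, X i (x + t * I : ℂ)‖) (Set.Ici 0) := by
  refine strict_prod Finset.univ Finset.univ_nonempty X 0 t fun i hi => ?_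
  refine (hX i).ap.strict le_rfl fun z hz h0' => ?_
  rw [h0 z (Finset.prod_eq_zero hi hz), abs_zero] at h0'
  exact absurd h0' (lt_irrefl _)

/-- finiteness and number from the bound for finite subsets -/
theorem fin_of {F : ℂ → ℂ} (hF : Differentiable ℂ F) (hne : ∃ z, F z ≠ 0) {A : Set ℂ} (h0 : ∀ z ∈ A, F z = 0)
    {B : ℝ} (h : ∀ W : Finset ℂ, (∀ s ∈ W, s ∈ A) → ∑ s ∈ W, (analyticOrderNatAt F s : ℝ) ≤ B) :
    A.Finite ∧ ((∑ᶠ s ∈ A, analyticOrderNatAt F s : ℕ) : ℝ) ≤ B := by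
  classical
  have hone : ∀ z ∈ A, (1 : ℝ) ≤ (analyticOrderNatAt F z : ℝ) := by
    intro z hz
    have h1 : analyticOrderNatAt F z ≠ 0 := by
      intro h6
      have h7 : analyticOrderAt F z = 0 := by
        rw [← Nat.cast_analyticOrderNatAt (top_of hF hne z), h6]
        rfl
      exact ((hF.analyticAt z).analyticOrderAt_eq_zero.mp h7) (h0 z hz)
    exact_mod_cast Nat.one_le_iff_ne_zero.2 h1
  have hfin : A.Finite := by
    by_contra hinf
    obtain ⟨n, hn⟩ := exists_nat_gt B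
    obtain ⟨W, hW1, hW2⟩ := Set.Infinite.exists_subset_card_eq hinf n
    have h1 := h W fun s hs => hW1 hs
    have h2 : (W.card : ℝ) ≤ ∑ s ∈ W, (analyticOrderNatAt F s : ℝ) := by
      rw [Finset.card_eq_sum_ones]
      push_cast
      exact Finset.sum_le_sum fun s hs => hone s (hW1 hs)
    rw [hW2] at h2
    linarith
  refine ⟨hfin, ?_⟩
  rw [finsum_mem_eq_finite_toFinset_sum _ hfin]
  push_cast
  exact h _ fun s hs => by rwa [Set.Finite.mem_toFinset] at hs

end fin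

end

end Pool.Agent.X284.HG
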